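import Pool.Agent.Q28.AL.Main

/-!
# Kummer varieties and homologically trivial cycles: definitions
-/

open CategoryTheory AlgebraicGeometry

universe u v w

namespace Pool.Agent.Q50.KV

open Pool.Agent.H914 Pool.Agent.H914.VarClass Pool.Agent.H914.VarClass.Obj Pool.Agent.W492.BB
  Pool.Agent.W550.Corr Pool.Agent.TH133 Pool.Agent.Q28.PV Pool.Agent.Q28.AL

variable {k : Type u} [Field k] {𝒱 : VarClass k} {C : TheoryData.{u, v, 0} 𝒱 ℚ}
  {K : Type w} [Field K] (H : WeilTheoryData.{u, v, w} C K)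

/-- The statement of the problem for `X` and the codimension `m`: if `H^(2m-1)(X) = 0`, then the
homologically trivial classes of codimension `m` on `X` are zero (rational coefficients). -/
def Question (X : 𝒱.Obj) (m : ℕ) : Prop :=
  (∀ a : H.A X, H.Deg (2 * m - 1) a → a = 0) → ∀ z : C.A X, HomTriv H X m z → z = 0

/-- The variety `X` has no odd cohomology. -/
def NoOddCohomology (X : 𝒱.Obj) : Prop := ∀ (i : ℤ) (a : H.A X), Odd i → H.Deg i a → a = 0

/-- `Y` is the Kummer variety of the variety `X` with the involution `σ`. The situation: `σ` acts as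
`(-1) ^ i` on `H^i(X)` and has isolated fixed points (for example `σ = -1` on an abelian variety, the
hyperelliptic involution on a curve, and products of these), `b : X' ⟶ X` is the blow-up of the
fixed points, `τ` the involution of `X'` over `σ`, and `q : X' ⟶ Y` the quotient by `τ`, which is
smooth. Recorded are the following well-known properties: `b` is birational (`b_* 1 = 1`), `q` is of
degree `2` (`q_* 1 = 2`) and `q^* q_* = 1 + τ^*` on the Chow groups, and the kernel of `b_*` is
spanned by classes of linear subspaces of the exceptional divisors, so that it contains no nonzero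
homologically trivial class and no nonzero cohomology class of odd degree. -/
def IsKummer {X : 𝒱.Obj} (σ : X ⟶ X) (Y : 𝒱.Obj) : Prop :=
  (σ ≫ σ = 𝟙 X ∧ ∀ (i : ℤ) (a : H.A X), Odd i → H.Deg i a → H.up σ a = -a) ∧
  ∃ (X' : 𝒱.Obj) (b : X' ⟶ X) (q : X' ⟶ Y) (τ : X' ⟶ X'),
    (X'.dim = X.dim ∧ Y.dim = X.dim ∧ τ ≫ τ = 𝟙 X' ∧ τ ≫ b = b ≫ σ ∧ τ ≫ q = q) ∧
    C.down b 1 = 1 ∧ C.down q 1 = 2 ∧ (∀ z : C.A X', C.up q (C.down q z) = z + C.up τ z) ∧
    (∀ (m : ℕ) (z : C.A X'), HomTriv H X' m z → C.down b z = 0 → z = 0) ∧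
    ∀ (i : ℤ) (a : H.A X'), Odd i → H.Deg i a → H.down b a = 0 → a = 0

/-- Well-known facts on the class `Ab` of abelian varieties over an algebraically closed field, in
addition to `Facts`: `neg A` is the involution `-1` of `A`, `Km A` the Kummer variety of `A`, and
addition `μ` and the origin `o` of `A` satisfy `μ_* (x × o) = x`, `μ_* (o × x) = x`, and
`μ_* (1, -1)_* x = 0` for zero-cycles `x` of degree zero (since `a + (-a) = 0`). -/
structure KummerFacts (Ab : 𝒱.Obj → Prop) (neg : ∀ A : 𝒱.Obj, A ⟶ A) (Km : 𝒱.Obj → 𝒱.Obj) :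
    Prop where
  kummer : ∀ A, Ab A → IsKummer H (neg A) (Km A)
  neg_prod : ∀ A B, Ab A → Ab B → neg (A.prod B) = prodMap (neg A) (neg B)
  group : ∀ A, Ab A → ∃ (μ : A.prod A ⟶ A) (o : C.A A), C.Deg A.dim o ∧ HasDegree C o 1 ∧
    (∀ x : C.A A, C.Deg A.dim x → C.down μ (C.ext x o) = x ∧ C.down μ (C.ext o x) = x) ∧
    ∀ x : C.A A, HomTriv H A A.dim x → C.down μ (C.down (Obj.lift (𝟙 A) (neg A)) x) = 0

end Pool.Agent.Q50.KV
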