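import Pool.Agent.Q50.KV.Defs

/-!
# Kummer varieties and homologically trivial cycles: the theorem
-/

open CategoryTheory AlgebraicGeometry

universe u v w

namespace Pool.Agent.Q50.KV

set_option linter.unusedSectionVars false
set_option maxHeartbeats 4000000
set_option synthInstance.maxHeartbeats 400000

open Pool.Agent.H914 Pool.Agent.H914.VarClass Pool.Agent.H914.VarClass.Obj Pool.Agent.W492.BB
  Pool.Agent.W550.Corr Pool.Agent.TH133 Pool.Agent.Q28.PV Pool.Agent.Q28.AL

variable {k : Type u} [Field k] {𝒱 : VarClass k} {C : TheoryData.{u, v, 0} 𝒱 ℚ} [IsChowProj C]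
  {K : Type w} [Field K] {H : WeilTheoryData.{u, v, w} C K} [IsWeilProj H]
  {X Y : 𝒱.Obj}

/-- For an involution, `σ^* = σ_*` on Chow groups. -/
lemma pull_invol {σ : X ⟶ X} (hσ : σ ≫ σ = 𝟙 X) (z : C.A X) : C.pull σ z = C.push σ z := by
  have h1 := push_pull_iso C σ σ hσ hσ z
  have h2 : C.push σ (C.push σ (C.pull σ z)) = C.push σ z := by rw [h1]
  rw [← C.push_comp, hσ, C.push_id] at h2
  exact h2

lemma coh_push_one {X Y : 𝒱.Obj} (f : X ⟶ Y) : H.push f 1 = H.cl (C.push f 1) := by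
  rw [H.cl_push, map_one H.cl]

lemma coh_pull_invol {σ : X ⟶ X} (hσ : σ ≫ σ = 𝟙 X) (a : H.A X) :
    H.pull σ a = H.push σ a := by
  have h0 : C.push σ (1 : C.A X) = 1 := by
    have := push_pull_iso C σ σ hσ hσ 1
    rwa [map_one] at this
  have h1 : H.push σ (H.pull σ a) = a := by
    have h3 := H.proj_right σ (1 : H.A X) a
    rw [one_mul] at h3
    rw [h3]
    have h4 : H.push σ (1 : H.A X) = 1 := by
      rw [← map_one H.cl, ← H.cl_push, h0]
    rw [h4, one_mul]
  have h2 : H.push σ (H.push σ (H.pull σ a)) = H.push σ a := by rw [h1]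
  rw [← H.push_comp, hσ, H.push_id] at h2
  exact h2

lemma two_ne {a : H.A X} (h : a + a = 0) : a = 0 := by
  have h1 : H.cl ((1 / 2 : ℚ) • (1 : C.A X)) * (a + a) = a := by
    rw [← two_mul a, ← mul_assoc]
    have h2 : H.cl ((1 / 2 : ℚ) • (1 : C.A X)) * (2 : H.A X) = 1 := by
      have h3 : (2 : H.A X) = H.cl (2 : C.A X) := by rw [map_ofNat]
      rw [h3, ← map_mul]
      have h4 : ((1 / 2 : ℚ) • (1 : C.A X)) * (2 : C.A X) = 1 := by
        rw [smul_mul_assoc, one_mul]
        have : (2 : C.A X) = (2 : ℚ) • (1 : C.A X) := by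
          rw [Algebra.smul_def, mul_one, map_ofNat]
        rw [this, smul_smul]
        norm_num
      rw [h4, map_one]
    rw [h2, one_mul]
  rw [h, mul_zero] at h1
  exact h1.symm

section kummer

variable {σ : X ⟶ X} {X' : 𝒱.Obj} {b : X' ⟶ X} {q : X' ⟶ Y} {τ : X' ⟶ X'}

lemma push_pull_b (hb : C.push b 1 = 1) (z : C.A X) : C.push b (C.pull b z) = z := by
  have h := C.proj_right b 1 z
  rw [one_mul] at h
  rw [h, hb, one_mul]

lemma push_pull_q (hq : C.push q 1 = 2) (z : C.A Y) : C.push q (C.pull q z) = z + z := by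
  have h := C.proj_right q 1 z
  rw [one_mul] at h
  rw [h, hq, two_mul]

lemma coh_push_pull_q (hq : C.push q 1 = 2) (a : H.A Y) : H.push q (H.pull q a) = a + a := by
  have h := H.proj_right q (1 : H.A X') a
  rw [one_mul] at h
  have h2 : H.push q (1 : H.A X') = 2 := by rw [coh_push_one, hq, map_ofNat]
  rw [h, h2, two_mul]

/-- The Kummer variety has no odd cohomology. -/
theorem noOdd {σ : X ⟶ X} (h : IsKummer H σ Y) : NoOddCohomology H Y := by
  obtain ⟨⟨hσ, hsign⟩, X', b, q, τ, ⟨hd, hdY, hτ, hτb, hτq⟩, hb, hq, hqq, hker, hkerH⟩ := h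
  intro i a hi ha
  have hc : H.pull τ (H.pull q a) = H.pull q a := by rw [← H.pull_comp, hτq]
  have hdeg : H.Deg i (H.push b (H.pull q a)) := by
    have h1 := H.push_mem b (H.pull_mem q ha)
    have e : i + 2 * ((X.dim : ℤ) - X'.dim) = i := by rw [hd]; ring
    rw [e] at h1
    exact h1
  have h1 : H.pull σ (H.push b (H.pull q a)) = H.push b (H.pull q a) := by
    rw [coh_pull_invol hσ, ← H.push_comp, ← hτb, H.push_comp, ← coh_pull_invol hτ, hc]
  have h2 := hsign i _ hi hdeg
  have h3 : H.push b (H.pull q a) + H.push b (H.pull q a) = 0 := by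
    have h4 : H.push b (H.pull q a) = -H.push b (H.pull q a) := by
      rw [← h2]
      exact h1.symm
    nth_rewrite 1 [h4]
    exact neg_add_cancel _
  have h4 := two_ne h3
  have h5 := hkerH i _ hi (H.pull_mem q ha) h4
  have h6 := coh_push_pull_q (H := H) hq a
  rw [show H.pull q a = 0 from h5, map_zero] at h6
  exact two_ne h6.symm

/-- The homologically trivial classes of a Kummer variety are the invariant homologically trivial
classes of the variety. -/
theorem kummer_iff {σ : X ⟶ X} (h : IsKummer H σ Y) (m : ℕ) :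
    (∀ z : C.A Y, HomTriv H Y m z → z = 0) ↔
      ∀ z : C.A X, HomTriv H X m z → C.up σ z = z → z = 0 := by
  obtain ⟨⟨hσ, hsign⟩, X', b, q, τ, ⟨hd, hdY, hτ, hτb, hτq⟩, hb, hq, hqq, hker, hkerH⟩ := h
  constructor
  · intro hY z hz hinv
    have h1 : HomTriv H Y m (C.push q (C.pull b z)) := by
      refine ⟨?_, by rw [H.cl_push, H.cl_pull, hz.2, map_zero, map_zero]⟩
      have h1 := C.push_mem q (C.pull_mem b hz.1)
      have e : (m : ℤ) + 1 * ((Y.dim : ℤ) - X'.dim) = m := by rw [hd, hdY]; ring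
      rw [e] at h1
      exact h1
    have h2 := hY _ h1
    have h3 := hqq (C.pull b z)
    have h4 : C.up q (C.down q (C.pull b z)) = 0 := by
      have : C.down q (C.pull b z) = 0 := h2
      rw [this]
      exact map_zero _
    rw [h4] at h3
    have h5 : C.up τ (C.pull b z) = C.pull b z := by
      have h6 : C.pull τ (C.pull b z) = C.pull b (C.pull σ z) := by
        rw [← C.pull_comp, hτb, C.pull_comp]
      have h7 : C.pull σ z = z := hinv
      rw [h7] at h6
      exact h6
    rw [h5] at h3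
    have h6 : C.push b (C.pull b z + C.pull b z) = z + z := by
      rw [map_add, push_pull_b hb]
    rw [← h3, map_zero] at h6
    have h7 : (2 : ℚ) • z = 0 := by rw [two_smul]; exact h6.symm
    exact (smul_eq_zero.1 h7).resolve_left (by norm_num)
  · intro hX w hw
    have hw' : HomTriv H X' m (C.pull q w) := homPull hw q
    have hinv : C.pull τ (C.pull q w) = C.pull q w := by rw [← C.pull_comp, hτq]
    have h1 : HomTriv H X m (C.push b (C.pull q w)) := by
      refine ⟨?_, by rw [H.cl_push, hw'.2, map_zero]⟩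
      have h1 := C.push_mem b hw'.1
      have e : (m : ℤ) + 1 * ((X.dim : ℤ) - X'.dim) = m := by rw [hd]; ring
      rw [e] at h1
      exact h1
    have h2 : C.up σ (C.push b (C.pull q w)) = C.push b (C.pull q w) := by
      have : C.pull σ (C.push b (C.pull q w)) = C.push b (C.pull q w) := by
        rw [pull_invol hσ, ← C.push_comp, ← hτb, C.push_comp, ← pull_invol hτ, hinv]
      exact this
    have h3 := hX _ h1 h2
    have h4 := hker m _ hw' h3
    have h5 := push_pull_q hq w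
    rw [h4, map_zero] at h5
    have h7 : (2 : ℚ) • w = 0 := by rw [two_smul]; exact h5.symm
    exact (smul_eq_zero.1 h7).resolve_left (by norm_num)

theorem question_iff {σ : X ⟶ X} (h : IsKummer H σ Y) (m : ℕ) :
    Question H Y m ↔ ∀ z : C.A X, HomTriv H X m z → C.up σ z = z → z = 0 := by
  rw [← kummer_iff h m]
  constructor
  · intro hq
    refine hq fun a ha => noOdd h (2 * m - 1) a ?_ ha
    exact ⟨m - 1, by ring⟩
  · intro hq _
    exact hq

end kummer

section products

variable {X₁ X₂ Y₁ Y₂ : 𝒱.Obj} {σ₁ : X₁ ⟶ X₁} {σ₂ : X₂ ⟶ X₂}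

lemma pull_prodMap_ext (x : C.A X₁) (y : C.A X₂) :
    C.pull (prodMap σ₁ σ₂) (C.ext x y) = C.ext (C.pull σ₁ x) (C.pull σ₂ y) := by
  rw [TheoryData.ext, TheoryData.ext, map_mul, ← C.pull_comp, ← C.pull_comp, ← C.pull_comp,
    ← C.pull_comp, prodMap, lift_fst, lift_snd]

lemma homTriv_ext {i j : ℕ} {x : C.A X₁} {y : C.A X₂} (hx : HomTriv H X₁ i x)
    (hy : HomTriv H X₂ j y) : HomTriv H (X₁.prod X₂) (i + j) (C.ext x y) := by
  refine ⟨?_, ?_⟩
  · have h := C.mul_mem (C.pull_mem (fst X₁ X₂) hx.1) (C.pull_mem (snd X₁ X₂) hy.1)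
    have e : ((i + j : ℕ) : ℤ) = i + j := by push_cast; ring
    rw [e]
    exact h
  · rw [TheoryData.ext, map_mul, H.cl_pull, hx.2, map_zero, zero_mul]

/-- If the homologically trivial classes are odd, then their exterior products vanish as soon as the
invariant homologically trivial classes of the product vanish. -/
lemma ext_zero {i j : ℕ} (hσ₁ : σ₁ ≫ σ₁ = 𝟙 X₁) (hσ₂ : σ₂ ≫ σ₂ = 𝟙 X₂)
    (h₁ : ∀ z : C.A X₁, HomTriv H X₁ i z → C.up σ₁ z = z → z = 0)
    (h₂ : ∀ z : C.A X₂, HomTriv H X₂ j z → C.up σ₂ z = z → z = 0)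
    (h : ∀ z : C.A (X₁.prod X₂), HomTriv H (X₁.prod X₂) (i + j) z →
      C.up (prodMap σ₁ σ₂) z = z → z = 0) {x : C.A X₁} {y : C.A X₂}
    (hx : HomTriv H X₁ i x) (hy : HomTriv H X₂ j y) : C.ext x y = 0 := by
  have e₁ : C.pull σ₁ x = -x := by
    have h3 : x + C.pull σ₁ x = 0 := by
      refine h₁ _ (hx.add (homPull hx σ₁)) ?_
      change C.pull σ₁ (x + C.pull σ₁ x) = x + C.pull σ₁ x
      rw [map_add, ← C.pull_comp, hσ₁, C.pull_id, add_comm]
    rw [add_comm] at h3
    exact eq_neg_of_add_eq_zero_left h3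
  have e₂ : C.pull σ₂ y = -y := by
    have h3 : y + C.pull σ₂ y = 0 := by
      refine h₂ _ (hy.add (homPull hy σ₂)) ?_
      change C.pull σ₂ (y + C.pull σ₂ y) = y + C.pull σ₂ y
      rw [map_add, ← C.pull_comp, hσ₂, C.pull_id, add_comm]
    rw [add_comm] at h3
    exact eq_neg_of_add_eq_zero_left h3
  refine h _ (homTriv_ext hx hy) ?_
  change C.pull (prodMap σ₁ σ₂) (C.ext x y) = C.ext x y
  rw [pull_prodMap_ext, e₁, e₂, TheoryData.ext, TheoryData.ext, map_neg, map_neg, neg_mul_neg]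

end products

section zeroCycles

variable {Ab : 𝒱.Obj → Prop} {neg : ∀ A : 𝒱.Obj, A ⟶ A} {Km : 𝒱.Obj → 𝒱.Obj} {T T' : 𝒱.Obj}

/-- The part of a zero-cycle on a product which is not determined by its images on the factors
vanishes, if exterior products of zero-cycles of degree zero vanish. -/
lemma prod_formula' (h : ∀ (x : C.A T) (y : C.A T'), HomTriv H T T.dim x → HomTriv H T' T'.dim y →
    C.ext x y = 0) {o : C.A T}
    {o' : C.A T'} (ho : C.Deg T.dim o) (hd : HasDegree C o 1) (ho' : C.Deg T'.dim o')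
    (hd' : HasDegree C o' 1) {z : C.A (T.prod T')}
    (hz : z ∈ Submodule.span ℚ {g | ∃ (x : C.A T) (y : C.A T'), C.Deg T.dim x ∧ C.Deg T'.dim y ∧
      g = C.ext x y}) :
    z = C.ext (C.push (fst T T') z) o' + C.ext o (C.push (snd T T') z) -
      C.ext (C.act (C.ext 1 o) (C.push (fst T T') z)) o' := by
  induction hz using Submodule.span_induction with
  | mem z hz =>
    obtain ⟨x, y, hx, hy, rfl⟩ := hz
    obtain ⟨q, hq⟩ := exists_hasDegree (C := C) hx
    obtain ⟨r, hr⟩ := exists_hasDegree (C := C) hy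
    have h1 : C.ext (x - q • o) (y - r • o') = 0 :=
      h _ _ (homTriv_sub (H := H) hx hq ho hd) (homTriv_sub (H := H) hy hr ho' hd')
    rw [push_fst_ext hr, push_snd_ext hq, Pool.Agent.Q28.AL.ext_smul_left,
      Pool.Agent.Q28.AL.ext_smul_right, act_map_smul,
      act_ext' (q := q) (by rwa [one_mul]), Pool.Agent.Q28.AL.ext_smul_left,
      Pool.Agent.Q28.AL.ext_smul_left]
    rw [ext_sub_left, ext_sub_right, ext_sub_right, Pool.Agent.Q28.AL.ext_smul_left,
      Pool.Agent.Q28.AL.ext_smul_left, Pool.Agent.Q28.AL.ext_smul_right,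
      Pool.Agent.Q28.AL.ext_smul_right] at h1
    rw [← sub_eq_zero, ← h1]
    module
  | zero => simp only [map_zero, C.act_map_zero, TheoryData.ext, zero_mul, mul_zero, add_zero,
      sub_zero]
  | add x y _ _ hx hy =>
    rw [map_add, map_add, act_map_add, ext_add_left, ext_add_left, ext_add_right]
    nth_rewrite 1 [hx]
    nth_rewrite 1 [hy]
    abel
  | smul a x _ hx =>
    rw [map_smul, map_smul, act_map_smul, Pool.Agent.Q28.AL.ext_smul_left,
      Pool.Agent.Q28.AL.ext_smul_left, Pool.Agent.Q28.AL.ext_smul_right]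
    nth_rewrite 1 [hx]
    rw [smul_sub, smul_add]

lemma odd_of_ext (hF : Facts H Ab) (hK : KummerFacts H Ab neg Km) (h : ExtZero H) {A : 𝒱.Obj}
    (hA : Ab A) {x : C.A A} (hx : HomTriv H A A.dim x) : C.pull (neg A) x = -x := by
  obtain ⟨⟨hσ, -⟩, -⟩ := hK.kummer A hA
  obtain ⟨μ, o, ho, hd, hunit, hinv⟩ := hK.group A hA
  have hz : C.Deg (A.prod A).dim (C.push (Obj.lift (𝟙 A) (neg A)) x) := by
    have h1 := C.push_mem (Obj.lift (𝟙 A) (neg A)) hx.1
    have e : (A.dim : ℤ) + 1 * (((A.prod A).dim : ℤ) - A.dim) = (A.prod A).dim := by ring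
    rw [e] at h1
    exact h1
  have h1 := prod_formula' (H := H) (T := A) (T' := A)
    (fun x y hx hy => ext_alg_zero h (hF.moving A x hx) (hF.moving A y hy))
    ho hd ho hd (hF.points A A _ hz)
  have h2 : C.push (fst A A) (C.push (Obj.lift (𝟙 A) (neg A)) x) = x := by
    rw [← C.push_comp, lift_fst, C.push_id]
  have h3 : C.push (snd A A) (C.push (Obj.lift (𝟙 A) (neg A)) x) = C.push (neg A) x := by
    rw [← C.push_comp, lift_snd]
  have h4 : C.act (C.ext 1 o) x = 0 := by
    have h5 : HasDegree C ((1 : C.A A) * x) 0 := by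
      rw [one_mul]
      exact hasDegree_zero_of_cl H hx.1 hx.2
    rw [act_ext' h5, zero_smul]
  have h5 : C.ext (0 : C.A A) o = 0 := by rw [TheoryData.ext, map_zero, zero_mul]
  rw [h2, h3, h4, h5, sub_zero] at h1
  have h6 : C.push μ (C.push (Obj.lift (𝟙 A) (neg A)) x) = 0 := hinv x hx
  have h7 : C.Deg A.dim (C.push (neg A) x) := by
    have h1 := C.push_mem (neg A) hx.1
    have e : (A.dim : ℤ) + 1 * ((A.dim : ℤ) - A.dim) = A.dim := by ring
    rw [e] at h1
    exact h1
  have h8 : C.push μ (C.ext x o) = x := (hunit x hx.1).1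
  have h9 : C.push μ (C.ext o (C.push (neg A) x)) = C.push (neg A) x := (hunit _ h7).2
  rw [h1, map_add, h8, h9] at h6
  rw [pull_invol hσ]
  rw [add_comm] at h6
  exact eq_neg_of_add_eq_zero_left h6

lemma zero_of_odd {z : C.A X} (h1 : z = -z) : z = 0 := by
  have h2 : z + z = 0 := by
    nth_rewrite 1 [h1]
    exact neg_add_cancel z
  have h7 : (2 : ℚ) • z = 0 := by rw [two_smul]; exact h2
  exact (smul_eq_zero.1 h7).resolve_left (by norm_num)

/-- The statement of the problem for zero-cycles on Kummer varieties. -/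
theorem zero_tfae (hF : Facts H Ab) (hK : KummerFacts H Ab neg Km) :
    [∀ A, Ab A → Question H (Km A) A.dim,
      ∀ (A : 𝒱.Obj) (z : C.A A), Ab A → AlbKernel H A z → z = 0,
      ∀ (T T' : 𝒱.Obj) (z : C.A (T.prod T')), T.dim = 1 → T'.dim = 1 →
        AlbKernel H (T.prod T') z → z = 0,
      ∀ (X : 𝒱.Obj) (i j : ℕ) (x y : C.A X), AlgTriv H X i x → AlgTriv H X j y →
        C.mul x y = 0].TFAE := by
  have h0 := curves_tfae (C := C) (H := H) (Ab := Ab) hF
  tfae_have 3 ↔ 2 := h0.out 0 1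
  tfae_have 2 ↔ 4 := h0.out 1 3
  tfae_have 1 → 2 := by
    intro h A z hA hz
    obtain ⟨μ, hμ⟩ := hF.pontryagin A hA
    have h1 := hμ z hz
    have h2 : Submodule.span ℚ {g | ∃ x y : C.A A, HomTriv H A A.dim x ∧ HomTriv H A A.dim y ∧
        g = C.down μ (C.ext x y)} ≤ ⊥ := by
      refine Submodule.span_le.2 ?_
      rintro g ⟨x, y, hx, hy, rfl⟩
      have hk := hK.kummer A hA
      have hAA := hF.prod A A hA hA
      have hk2 := hK.kummer _ hAA
      rw [hK.neg_prod A A hA hA] at hk2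
      have h3 := (question_iff hk A.dim).1 (h A hA)
      have h4 := (question_iff hk2 (A.prod A).dim).1 (h _ hAA)
      rw [dim_prod] at h4
      rw [ext_zero hk.1.1 hk.1.1 h3 h3 h4 hx hy]
      exact map_zero (C.push μ)
    exact (Submodule.mem_bot _).1 (h2 h1)
  tfae_have 2 → 1 := by
    intro h A hA
    have hE : ExtZero H := (h0.out 1 2).1 h
    rw [question_iff (hK.kummer A hA)]
    intro z hz hinv
    have h1 := odd_of_ext hF hK hE hA hz
    have h2 : C.pull (neg A) z = z := hinv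
    rw [h2] at h1
    exact zero_of_odd h1
  tfae_finish

/-- The statement of the problem for Kummer varieties: all homologically trivial classes on abelian
varieties are odd. -/
theorem all_iff (hK : KummerFacts H Ab neg Km) (A : 𝒱.Obj) (hA : Ab A) (m : ℕ) :
    Question H (Km A) m ↔ ∀ z : C.A A, HomTriv H A m z → C.up (neg A) z = -z := by
  have hk := hK.kummer A hA
  rw [question_iff hk]
  constructor
  · intro h z hz
    have h3 : z + C.pull (neg A) z = 0 := by
      refine h _ (hz.add (homPull hz _)) ?_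
      change C.pull (neg A) (z + C.pull (neg A) z) = z + C.pull (neg A) z
      rw [map_add, ← C.pull_comp, hk.1.1, C.pull_id, add_comm]
    rw [add_comm] at h3
    exact eq_neg_of_add_eq_zero_left h3
  · intro h z hz hinv
    have h1 := h z hz
    rw [hinv] at h1
    exact zero_of_odd h1

theorem final (hF : Facts H Ab) (hK : KummerFacts H Ab neg Km) :
    (∀ (X Y : 𝒱.Obj) (σ : X ⟶ X), IsKummer H σ Y → NoOddCohomology H Y ∧
      ∀ m : ℕ, Question H Y m ↔ ∀ z : C.A X, HomTriv H X m z → C.up σ z = z → z = 0) ∧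
    (∀ (X₁ X₂ Y₁ Y₂ Z : 𝒱.Obj) (σ₁ : X₁ ⟶ X₁) (σ₂ : X₂ ⟶ X₂), IsKummer H σ₁ Y₁ →
      IsKummer H σ₂ Y₂ → IsKummer H (prodMap σ₁ σ₂) Z → ∀ i j : ℕ, Question H Y₁ i →
        Question H Y₂ j → Question H Z (i + j) → ∀ (x : C.A X₁) (y : C.A X₂),
          HomTriv H X₁ i x → HomTriv H X₂ j y → C.ext x y = 0) ∧
    (∀ A, Ab A → ∀ m, Question H (Km A) m ↔
      ∀ z : C.A A, HomTriv H A m z → C.up (neg A) z = -z) ∧
    [∀ A, Ab A → Question H (Km A) A.dim,
      ∀ (A : 𝒱.Obj) (z : C.A A), Ab A → AlbKernel H A z → z = 0,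
      ∀ (T T' : 𝒱.Obj) (z : C.A (T.prod T')), T.dim = 1 → T'.dim = 1 →
        AlbKernel H (T.prod T') z → z = 0,
      ∀ (X : 𝒱.Obj) (i j : ℕ) (x y : C.A X), AlgTriv H X i x → AlgTriv H X j y →
        C.mul x y = 0].TFAE := by
  refine ⟨fun X Y σ h => ⟨noOdd h, question_iff h⟩, ?_, fun A hA m => all_iff hK A hA m,
    zero_tfae hF hK⟩
  intro X₁ X₂ Y₁ Y₂ Z σ₁ σ₂ h₁ h₂ hZ i j q₁ q₂ q x y hx hy
  exact ext_zero h₁.1.1 h₂.1.1 ((question_iff h₁ i).1 q₁) ((question_iff h₂ j).1 q₂)
    ((question_iff hZ (i + j)).1 q) hx hy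

end zeroCycles

end Pool.Agent.Q50.KV
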